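import Pool.Agent.H579.Pairwise

set_option autoImplicit false

/-!
# Arbitrary pairwise coprime coefficients: bounded constants, with absolute bounds

There are absolute constants `C`, `L₀` and `δ > 0` with the following property. Let `V` be an ARBITRARY finite
set of pairwise coprime positive integers, for instance of primes, however thin and however large its elements
may be. Then for every length `L ≥ L₀`, if `V` is large (`N₁ L ≤ |V|`, where `N₁` depends on `ε` only), for at
least `(1/3 - ε) |V| ^ 2` of the ordered pairs `(a, b)` of elements of `V` at least `δ L` of the constants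
`c = 1, ..., L` are such that `(a, b, c)` satisfies the hypotheses of the question and `a p - b q = c` has
infinitely many prime solutions; more precisely at least `x / (log x) ^ C` primes `p ≤ x` occur, for
arbitrarily large `x`. In particular `0 < a p - b q ≤ L₀` infinitely often for a third of the ordered pairs:
the bound does not depend on the coefficients.

Used from the starting files: the coloured Maynard-Tao theorem with the constant `18 / 5` for fixed linear forms
(`Pool.Agent.V11150.RatC.coloured`), for four classes. New: the linear forms `(N + h_x) / P_x` for arbitrary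
pairwise coprime `P_x` with bounded shifts `h_x`, a random choice of the shifts, and the supersaturated Turan
theorem for directed graphs without transitive quadruples, which gives positive constants for ordered pairs.
-/

namespace Pool.Agent.Results.MP_bf63dc_nt.ArbitraryCoefficients

open Filter

/-- the hypotheses of the question -/
def Adm (a b : ℕ) (c : ℤ) : Prop :=
  1 ≤ a ∧ 1 ≤ b ∧ c ≠ 0 ∧ IsCoprime (a : ℤ) b ∧ IsCoprime (a : ℤ) c ∧ IsCoprime (b : ℤ) c ∧
    ¬ (Odd a ∧ Odd b ∧ Odd c)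

/-- `(a, b, c)` satisfies the hypotheses of the question, `a p - b q = c` has infinitely many prime solutions, and
for arbitrarily large `x` at least `x / (log x) ^ C` primes `p ≤ x` occur in them -/
def Good (C a b : ℕ) (c : ℤ) : Prop :=
  Adm a b c ∧ {pq : ℕ × ℕ | pq.1.Prime ∧ pq.2.Prime ∧ (a : ℤ) * pq.1 - b * pq.2 = c}.Infinite ∧
    ∃ᶠ x : ℕ in atTop, (x : ℝ) / Real.log x ^ C ≤
      ({p : ℕ | (p.Prime ∧ ∃ q : ℕ, q.Prime ∧ (a : ℤ) * p - b * q = c) ∧ p ≤ x}.ncard : ℝ)

theorem good_of {C a b : ℕ} {c : ℤ} (h : Pool.Agent.H579.Good C a b c) : Good C a b c :=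
  ⟨h.1, Pool.Agent.H579.sol_pairs_infinite (Pool.Agent.H579.often_infinite h.2), h.2⟩

/-- **Theorem.** -/
theorem result : ∃ (C : ℕ) (δ : ℝ) (L₀ : ℕ), 0 < δ ∧ ∀ ε : ℝ, 0 < ε → ∃ N₁ : ℕ, ∀ L : ℕ, L₀ ≤ L →
    ∀ V : Finset ℕ, (∀ a ∈ V, 1 ≤ a) → (∀ a ∈ V, ∀ b ∈ V, a ≠ b → Nat.Coprime a b) → N₁ * L ≤ V.card →
    (1 / 3 - ε) * (V.card : ℝ) ^ 2 ≤ ({z : ℕ × ℕ | z.1 ∈ V ∧ z.2 ∈ V ∧
      δ * L ≤ ({c : ℕ | 1 ≤ c ∧ c ≤ L ∧ Good C z.1 z.2 c}.ncard : ℝ)}.ncard : ℝ) := by
  obtain ⟨C, δ, L₀, hδ, H⟩ := Pool.Agent.H579.arbitrary_sets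
  refine ⟨C, δ, L₀, hδ, ?_⟩
  intro ε hε
  obtain ⟨N₁, hN⟩ := H ε hε
  refine ⟨N₁, ?_⟩
  intro L hL V hV hcop hcard
  refine (hN L hL V hV hcop hcard).trans ?_
  rw [Nat.cast_le]
  apply Set.ncard_le_ncard
  · rintro ⟨a, b⟩ ⟨h1, h2, h3⟩
    refine ⟨h1, h2, h3.trans ?_⟩
    rw [Nat.cast_le]
    apply Set.ncard_le_ncard _ ((Set.finite_Iic L).subset fun c hc => hc.2.1)
    rintro c ⟨h4, h5, h6⟩
    exact ⟨h4, h5, good_of h6⟩
  · exact ((V : Set ℕ).toFinite.prod (V : Set ℕ).toFinite).subset fun z hz => ⟨hz.1, hz.2.1⟩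

end Pool.Agent.Results.MP_bf63dc_nt.ArbitraryCoefficients
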