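import Pool.Agent.H579.FixedConst

set_option autoImplicit false

/-!
# Arbitrary pairwise coprime coefficients and a prescribed constant

Let `c` be prime to `6` (for example `c = 1` or `c = -1`), of arbitrary size, with at most `r` prime factors. There is
a bound `B`, which depends on `r` only, such that for EVERY large finite set `V` of pairwise coprime positive integers
(for instance primes), however thin and however large its elements may be, for at least `(1/3 - ε) |V| ^ 2` of the
ordered pairs `(P, P')` of elements of `V` there is `v ≤ B` such that `((v + 1) P, v P', c)` satisfies the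
hypotheses of the question and the equation `(v + 1) P p - v P' q = c`, with exactly this constant, has infinitely
many prime solutions; more precisely at least `x / (log x) ^ C` primes `p ≤ x` occur, for arbitrarily large `x`, with
an absolute constant `C`.

Used from the starting files: the coloured Maynard-Tao theorem with the constant `18 / 5` for fixed linear forms
(`Pool.Agent.V11150.RatC.coloured`), for four classes. New: for arbitrary pairwise coprime integers `P_x` without small
prime factors a system of linear forms `L_x`, one for each `x`, such that for all `x`, `y` of different classes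
`(v + 1) P_x L_x - v P_y L_y = c` identically, with bounded `v` which depends on `x`, `y` only; and the supersaturated
Turan theorem for directed graphs without transitive quadruples.
-/

namespace Pool.Agent.Results.MP_bf63dc_nt.PrescribedConstant

open Filter

/-- the hypotheses of the question -/
def Adm (a b : ℕ) (c : ℤ) : Prop :=
  1 ≤ a ∧ 1 ≤ b ∧ c ≠ 0 ∧ IsCoprime (a : ℤ) b ∧ IsCoprime (a : ℤ) c ∧ IsCoprime (b : ℤ) c ∧
    ¬ (Odd a ∧ Odd b ∧ Odd c)

/-- `(a, b, c)` satisfies the hypotheses of the question, `a p - b q = c` has infinitely many prime solutions, and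
for arbitrarily large `x` at least `x / (log x) ^ C` primes `p ≤ x` occur in them -/
def Good (C a b : ℕ) (c : ℤ) : Prop :=
  Adm a b c ∧ {pq : ℕ × ℕ | pq.1.Prime ∧ pq.2.Prime ∧ (a : ℤ) * pq.1 - b * pq.2 = c}.Infinite ∧
    ∃ᶠ x : ℕ in atTop, (x : ℝ) / Real.log x ^ C ≤
      ({p : ℕ | (p.Prime ∧ ∃ q : ℕ, q.Prime ∧ (a : ℤ) * p - b * q = c) ∧ p ≤ x}.ncard : ℝ)

theorem good_of {C a b : ℕ} {c : ℤ} (h : Pool.Agent.H579.Good C a b c) : Good C a b c :=
  ⟨h.1, Pool.Agent.H579.sol_pairs_infinite (Pool.Agent.H579.often_infinite h.2), h.2⟩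

/-- **Theorem.** -/
theorem result : ∃ C : ℕ, ∀ r : ℕ, ∃ B : ℕ, ∀ ε : ℝ, 0 < ε → ∃ N₀ : ℕ,
    ∀ c : ℤ, IsCoprime c 6 → c.natAbs.primeFactors.card ≤ r →
    ∀ V : Finset ℕ, (∀ a ∈ V, 1 ≤ a) → (∀ a ∈ V, ∀ b ∈ V, a ≠ b → Nat.Coprime a b) → N₀ ≤ V.card →
    (1 / 3 - ε) * (V.card : ℝ) ^ 2 ≤ ({z : ℕ × ℕ | z.1 ∈ V ∧ z.2 ∈ V ∧
      ∃ v : ℕ, 1 ≤ v ∧ v ≤ B ∧ Good C ((v + 1) * z.1) (v * z.2) c}.ncard : ℝ) := by
  obtain ⟨C, H⟩ := Pool.Agent.H579.fixed_const_sets
  refine ⟨C, ?_⟩
  intro r
  obtain ⟨B, HB⟩ := H r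
  refine ⟨B, ?_⟩
  intro ε hε
  obtain ⟨N₀, hN⟩ := HB ε hε
  refine ⟨N₀, ?_⟩
  intro c hc hcr V hV hcop hcard
  refine (hN c hc hcr V hV hcop hcard).trans ?_
  rw [Nat.cast_le]
  apply Set.ncard_le_ncard
  · rintro ⟨a, b⟩ ⟨h1, h2, v, h3, h4, h5⟩
    exact ⟨h1, h2, v, h3, h4, good_of h5⟩
  · exact ((V : Set ℕ).toFinite.prod (V : Set ℕ).toFinite).subset fun z hz => ⟨hz.1, hz.2.1⟩

end Pool.Agent.Results.MP_bf63dc_nt.PrescribedConstant
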