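import Pool.Agent.H579.AllPairs2

set_option autoImplicit false

/-!
# A third of all pairs of coefficients: a positive proportion of the bounded constants, uniformly in the coefficients

For `ε > 0` there are `δ > 0` and `L₀`, which depend on `ε` only, such that for every length `L ≥ L₀` the following
holds for the proportion `1/3 - ε` of the pairs of coefficients, HOWEVER LARGE the coefficients may be: at least `δ L`
of the constants `c = 1, ..., L` are such that the triple satisfies the hypotheses of the question and `a p - b q = c`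
has infinitely many prime solutions (at least `x / (log x) ^ C` primes `p ≤ x` for arbitrarily large `x`, with an
absolute constant `C`). In particular `0 < a p - b q ≤ L₀` infinitely often. The pairs may be

* the reduced fractions `a / b = m / n` of the pairs `m, n ≤ X`, for every `X`;
* the coprime pairs `a, b ≤ X` with the weight `1 / (a b)`, for every large `X`;
* the reduced fractions `m / n` of independent random integers `m, n` with an arbitrary common distribution which is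
  spread in the sense that `d` divides `m` with a probability of at most `C₀ d ^ (-θ)`, for all `d`, with a fixed
  exponent `θ > 1/2`; `δ` and `L₀` depend on `ε`, `C₀`, `θ` only (the first two cases are derived from this one).

Used from the starting files: the coloured Maynard-Tao theorem with the constant `18 / 5` for fixed linear forms
(`Pool.Agent.V11150.RatC.coloured`), for four classes, and for the coprime pairs the lemmas on sums over pairs
sorted by the greatest common divisor (`Pool.Agent.K7.H63.RT`). New: the linear forms `(N + h_x) / m_x` for random `m_x`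
with bounded random shifts `h_x`, and the supersaturated Turan theorem for directed graphs without transitive
quadruples, for arbitrary probability measures.
-/

namespace Pool.Agent.Results.MP_bf63dc_nt.ThirdOfAllPairs

open Filter Finset

/-- the hypotheses of the question -/
def Adm (a b : ℕ) (c : ℤ) : Prop :=
  1 ≤ a ∧ 1 ≤ b ∧ c ≠ 0 ∧ IsCoprime (a : ℤ) b ∧ IsCoprime (a : ℤ) c ∧ IsCoprime (b : ℤ) c ∧
    ¬ (Odd a ∧ Odd b ∧ Odd c)

/-- `(a, b, c)` satisfies the hypotheses of the question, `a p - b q = c` has infinitely many prime solutions, and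
for arbitrarily large `x` at least `x / (log x) ^ C` primes `p ≤ x` occur in them -/
def Good (C a b : ℕ) (c : ℤ) : Prop :=
  Adm a b c ∧ {pq : ℕ × ℕ | pq.1.Prime ∧ pq.2.Prime ∧ (a : ℤ) * pq.1 - b * pq.2 = c}.Infinite ∧
    ∃ᶠ x : ℕ in atTop, (x : ℝ) / Real.log x ^ C ≤
      ({p : ℕ | (p.Prime ∧ ∃ q : ℕ, q.Prime ∧ (a : ℤ) * p - b * q = c) ∧ p ≤ x}.ncard : ℝ)

/-- the number of the constants `c = 1, ..., L` such that the triple `(a, b, c)` is good, where `a / b` is the
reduced fraction `m / n` -/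
noncomputable def solvable (C L m n : ℕ) : ℕ :=
  {c : ℕ | 1 ≤ c ∧ c ≤ L ∧ Good C (m / Nat.gcd m n) (n / Nat.gcd m n) c}.ncard

theorem good_of {C a b : ℕ} {c : ℤ} (h : Pool.Agent.H579.Good C a b c) : Good C a b c :=
  ⟨h.1, Pool.Agent.H579.sol_pairs_infinite (Pool.Agent.H579.often_infinite h.2), h.2⟩

theorem cnt_le (C L m n : ℕ) : Pool.Agent.H579.cnt C L m n ≤ solvable C L m n := by
  apply Set.ncard_le_ncard _ ((Set.finite_Iic L).subset fun c hc => hc.2.1)
  rintro c ⟨h1, h2, h3⟩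
  exact ⟨h1, h2, good_of h3⟩

open Classical in
/-- **Theorem.** -/
theorem result : ∃ C : ℕ,
    (∀ ε : ℝ, 0 < ε → ∃ (δ : ℝ) (L₀ : ℕ), 0 < δ ∧ ∀ X L : ℕ, 1 ≤ X → L₀ ≤ L →
      (1 / 3 - ε) * (X : ℝ) ^ 2 ≤
        (((Icc 1 X ×ˢ Icc 1 X).filter (fun z => δ * L ≤ (solvable C L z.1 z.2 : ℝ))).card : ℝ)) ∧
    (∀ ε : ℝ, 0 < ε → ∃ (δ : ℝ) (L₀ X₀ : ℕ), 0 < δ ∧ ∀ X L : ℕ, X₀ ≤ X → L₀ ≤ L →
      (1 / 3 - ε) * ∑ z ∈ (Icc 1 X ×ˢ Icc 1 X).filter (fun z => Nat.Coprime z.1 z.2), 1 / ((z.1 : ℝ) * z.2) ≤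
        ∑ z ∈ (Icc 1 X ×ˢ Icc 1 X).filter (fun z => Nat.Coprime z.1 z.2 ∧
          δ * L ≤ (solvable C L z.1 z.2 : ℝ)), 1 / ((z.1 : ℝ) * z.2)) ∧
    (∀ θ C₀ ε : ℝ, 1 / 2 < θ → 0 < ε → ∃ (δ : ℝ) (L₀ : ℕ), 0 < δ ∧
      ∀ (A : Finset ℕ) (w : ℕ → ℝ), (∀ m ∈ A, 1 ≤ m ∧ 0 ≤ w m) → ∑ m ∈ A, w m = 1 →
        (∀ d : ℕ, 1 ≤ d → ∑ m ∈ A.filter (fun m => d ∣ m), w m ≤ C₀ * (d : ℝ) ^ (-θ)) → ∀ L : ℕ, L₀ ≤ L →
        1 / 3 - ε ≤ ∑ z ∈ (A ×ˢ A).filter (fun z => δ * L ≤ (solvable C L z.1 z.2 : ℝ)), w z.1 * w z.2) := by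
  obtain ⟨C, H⟩ := Pool.Agent.H579.spread_finset
  refine ⟨C, ?_, ?_, ?_⟩
  · intro ε hε
    obtain ⟨δ, L₀, hδ, h⟩ := Pool.Agent.H579.all_pairs H ε hε
    refine ⟨δ, L₀, hδ, ?_⟩
    intro X L hX hL
    refine (h X L hX hL).trans ?_
    rw [← Set.ncard_coe_finset, Nat.cast_le]
    apply Set.ncard_le_ncard _ (Finset.finite_toSet _)
    rintro ⟨a, b⟩ ⟨h1, h2, h3⟩
    rw [mem_coe, mem_filter, mem_product]
    exact ⟨⟨h1, h2⟩, h3.trans (by exact_mod_cast cnt_le C L a b)⟩
  · intro ε hε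
    obtain ⟨δ, L₀, X₀, hδ, h⟩ := Pool.Agent.H579.coprime_pairs H ε hε
    refine ⟨δ, L₀, X₀, hδ, ?_⟩
    intro X L hX hL
    have h1 := h X L hX hL
    have hCP : Pool.Agent.K7.H63.RT.CP 1 X = (Icc 1 X ×ˢ Icc 1 X).filter (fun z => Nat.Coprime z.1 z.2) := by
      ext z
      rw [Pool.Agent.K7.H63.RT.mem_CP, Pool.Agent.K7.H63.RT.mem_V, Pool.Agent.K7.H63.RT.mem_V, mem_filter,
        mem_product, mem_Icc, mem_Icc]
      simp only [Nat.coprime_one_right_iff, and_true]
    unfold Pool.Agent.K7.H63.RT.T Pool.Agent.K7.H63.RT.S at h1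
    rw [hCP] at h1
    refine h1.trans ?_
    rw [← Finset.sum_filter, Finset.filter_filter]
    apply Finset.sum_le_sum_of_subset_of_nonneg
    · intro z hz
      obtain ⟨h2, h3, h4⟩ := mem_filter.1 hz
      rw [mem_filter]
      exact ⟨h2, h3, h4.trans (by exact_mod_cast cnt_le C L z.1 z.2)⟩
    · intro z _ _
      positivity
  · intro θ C₀ ε hθ hε
    obtain ⟨δ, L₀, hδ, h⟩ := H θ C₀ ε hθ hε
    refine ⟨δ, L₀, hδ, ?_⟩
    intro A w hA h1 hd L hL
    refine (h A w hA h1 ?_ L hL).trans ?_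
    · intro d hd1
      refine le_trans (le_of_eq ?_) (hd d hd1)
      rw [Finset.sum_filter]
      apply Finset.sum_congr rfl
      intro m _
      by_cases hm : d ∣ m
      · rw [Pool.Agent.H579.ind_pos hm, if_pos hm, mul_one]
      · rw [Pool.Agent.H579.ind_neg hm, if_neg hm, mul_zero]
    · rw [Finset.sum_filter, Finset.sum_product]
      apply Finset.sum_le_sum
      intro m hm
      apply Finset.sum_le_sum
      intro n hn
      have h2 := mul_nonneg (hA m hm).2 (hA n hn).2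
      by_cases h3 : δ * L ≤ (solvable C L m n : ℝ)
      · rw [if_pos h3]
        calc w m * w n * Pool.Agent.H579.ind (δ * L ≤ (Pool.Agent.H579.cnt C L m n : ℝ)) ≤ w m * w n * 1 :=
              mul_le_mul_of_nonneg_left (Pool.Agent.H579.ind_le_one _) h2
          _ = w m * w n := mul_one _
      · rw [if_neg h3, Pool.Agent.H579.ind_neg, mul_zero]
        intro h4
        exact h3 (h4.trans (by exact_mod_cast cnt_le C L m n))

end Pool.Agent.Results.MP_bf63dc_nt.ThirdOfAllPairs
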